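import Pool.Agent.R143.Bus3

set_option autoImplicit false

/-!
# The maximal detached group has no diffusive scaling limit

The laws of the rescaled processes `M^(m)(t) = M(m^2 t) / m` on the space of continuous paths on
`(0, ∞)` do not converge weakly, because `M` has macroscopic jumps.
-/

open Finset MeasureTheory ProbabilityTheory Filter Topology

open scoped BoundedContinuousFunction

namespace Pool.Agent.Results.MP_d01e83_pr.NoLimit

open Pool.Agent.R143.Bus

/-- Continuous paths on `(0, ∞)` with the compact-open topology (uniform convergence on compact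
sets). -/
abbrev Paths : Type := C(Set.Ioi (0 : ℝ), ℝ)

/-- The Borel sigma-algebra of the path space. -/
noncomputable instance : MeasurableSpace Paths := borel Paths

instance : BorelSpace Paths := ⟨rfl⟩

/-- Linear interpolation, between consecutive integers, of the values `f 1, f 2, …` at arguments
`t ≥ 1`; for `t < 1` the value is `f 1`. -/
noncomputable def interp (f : ℕ → ℝ) (t : ℝ) : ℝ :=
  f ⌊max t 1⌋₊ + (max t 1 - ⌊max t 1⌋₊) * (f (⌊max t 1⌋₊ + 1) - f ⌊max t 1⌋₊)

theorem tele (f : ℕ → ℝ) (a : ℕ) (ha : 1 ≤ a) :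
    ∑ k ∈ Ico 1 a, (f (k + 1) - f k) = f a - f 1 := by
  induction a, ha using Nat.le_induction with
  | base => simp
  | succ a ha ih =>
    rw [sum_Ico_succ_top ha, ih]
    ring

theorem interp_eq (f : ℕ → ℝ) (t : ℝ) (K : ℕ) (hK : max t 1 < K) :
    interp f t = f 1 + ∑ k ∈ Ico 1 K, (f (k + 1) - f k) * max 0 (min 1 (max t 1 - k)) := by
  unfold interp
  set s := max t 1 with hs
  have hs1 : 1 ≤ s := le_max_right _ _
  set a := ⌊s⌋₊ with ha
  have ha1 : 1 ≤ a := Nat.le_floor (by exact_mod_cast hs1)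
  have has : (a : ℝ) ≤ s := Nat.floor_le (by linarith)
  have hsa : s < a + 1 := Nat.lt_floor_add_one s
  have haK : a < K := by
    have : (a : ℝ) < K := has.trans_lt hK
    exact_mod_cast this
  rw [← sum_Ico_consecutive _ ha1 haK.le, sum_eq_sum_Ico_succ_bot haK]
  have h1 : ∑ k ∈ Ico 1 a, (f (k + 1) - f k) * max 0 (min 1 (s - k)) = f a - f 1 := by
    rw [← tele f a ha1]
    apply sum_congr rfl
    intro k hk
    rw [mem_Ico] at hk
    have : (k : ℝ) + 1 ≤ a := by exact_mod_cast hk.2
    rw [min_eq_left (by linarith), max_eq_right (by norm_num), mul_one]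
  have h2 : ∑ k ∈ Ico (a + 1) K, (f (k + 1) - f k) * max 0 (min 1 (s - k)) = 0 := by
    apply sum_eq_zero
    intro k hk
    rw [mem_Ico] at hk
    have : (a : ℝ) + 1 ≤ k := by exact_mod_cast hk.1
    rw [max_eq_left, mul_zero]
    exact (min_le_right _ _).trans (by linarith)
  rw [h1, h2, min_eq_right (by linarith), max_eq_right (by linarith)]
  ring

theorem continuous_interp : Continuous (fun p : (ℕ → ℝ) × ℝ => interp p.1 p.2) := by
  rw [continuous_iff_continuousAt]
  intro p
  obtain ⟨K, hK⟩ := exists_nat_gt (max p.2 1)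
  have h1 : (fun p : (ℕ → ℝ) × ℝ => interp p.1 p.2) =ᶠ[𝓝 p] (fun p : (ℕ → ℝ) × ℝ =>
      p.1 1 + ∑ k ∈ Ico 1 K, (p.1 (k + 1) - p.1 k) * max 0 (min 1 (max p.2 1 - k))) := by
    have hopen : IsOpen {q : (ℕ → ℝ) × ℝ | max q.2 1 < K} :=
      isOpen_lt (by fun_prop) continuous_const
    filter_upwards [hopen.mem_nhds hK] with q hq
    exact interp_eq q.1 q.2 K hq
  refine ContinuousAt.congr ?_ h1.symm
  apply Continuous.continuousAt
  fun_prop

/-- The path `t ↦ f(m^2 t) / m`, `t > 0`, for the interpolation of `f`. -/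
noncomputable def path (f : ℕ → ℝ) (m : ℕ) : Paths where
  toFun t := interp f ((m : ℝ) ^ 2 * t) / m
  continuous_toFun := by
    have h := continuous_interp.comp
      (Continuous.prodMk (continuous_const (y := f))
        (show Continuous (fun t : Set.Ioi (0 : ℝ) => (m : ℝ) ^ 2 * (t : ℝ)) by fun_prop))
    exact h.div_const _

theorem continuous_path (m : ℕ) : Continuous (fun f : ℕ → ℝ => path f m) := by
  apply ContinuousMap.continuous_of_continuous_uncurry
  have h := continuous_interp.comp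
    (show Continuous (fun p : (ℕ → ℝ) × Set.Ioi (0 : ℝ) => (p.1, (m : ℝ) ^ 2 * (p.2 : ℝ))) by
      fun_prop)
  exact h.div_const _

/-- The law of the rescaled process `M^(m)` on the path space. -/
noncomputable def law {Ω : Type} [MeasurableSpace Ω] (P : Measure Ω) (U : ℕ → ℕ → Set Ω) (m : ℕ) :
    Measure Paths :=
  P.map (fun ω => path (fun k => (Mx U k ω : ℝ)) m)

/-- The laws `ν m` converge weakly, as `m → ∞`, to some probability measure on the path space. -/
def LawsConverge (ν : ℕ → Measure Paths) : Prop :=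
  ∃ μ : Measure Paths, IsProbabilityMeasure μ ∧
    ∀ Φ : Paths →ᵇ ℝ, Tendsto (fun m => ∫ x, Φ x ∂(ν m)) atTop (𝓝 (∫ x, Φ x ∂μ))

theorem measurable_path {Ω : Type} [MeasurableSpace Ω] {P : Measure Ω} {U : ℕ → ℕ → Set Ω}
    (hU : Passengers P U) (m : ℕ) :
    Measurable (fun ω => path (fun k => (Mx U k ω : ℝ)) m) := by
  apply (continuous_path m).measurable.comp
  rw [measurable_pi_iff]
  intro k
  exact measurable_from_top.comp (measurable_Mx hU k)

/-- The clamping map onto `[1/16384, ∞)`. -/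
noncomputable def pr (s : ℝ) : Set.Ioi (0 : ℝ) :=
  ⟨max s (1 / 16384), lt_of_lt_of_le (show (0 : ℝ) < 1 / 16384 by norm_num) (le_max_right s _)⟩

theorem continuous_pr : Continuous pr := by
  exact (continuous_id.max continuous_const).subtype_mk _

/-- Pairs of times at distance at most `δ`. -/
def Kset (δ : ℝ) : Set (ℝ × ℝ) :=
  (Set.Icc (1 / 16384) 1 ×ˢ Set.Icc (1 / 16384) 1) ∩ {p | |p.1 - p.2| ≤ δ}

theorem compact_Kset (δ : ℝ) : IsCompact (Kset δ) := by
  apply (isCompact_Icc.prod isCompact_Icc).inter_right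
  exact isClosed_le (by fun_prop) continuous_const

/-- The modulus of continuity on `[1/16384, 1]`. -/
noncomputable def modc (δ : ℝ) (x : Paths) : ℝ :=
  sSup ((fun p : ℝ × ℝ => |x (pr p.1) - x (pr p.2)|) '' Kset δ)

theorem continuous_osc :
    Continuous (fun q : Paths × (ℝ × ℝ) => |q.1 (pr q.2.1) - q.1 (pr q.2.2)|) := by
  have : LocallyCompactSpace (Set.Ioi (0 : ℝ)) := isOpen_Ioi.locallyCompactSpace
  have hev : Continuous (fun q : Paths × Set.Ioi (0 : ℝ) => q.1 q.2) := by fun_prop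
  have h1 : Continuous (fun q : Paths × (ℝ × ℝ) => q.1 (pr q.2.1)) :=
    hev.comp (continuous_fst.prodMk (continuous_pr.comp (continuous_fst.comp continuous_snd)))
  have h2 : Continuous (fun q : Paths × (ℝ × ℝ) => q.1 (pr q.2.2)) :=
    hev.comp (continuous_fst.prodMk (continuous_pr.comp (continuous_snd.comp continuous_snd)))
  exact (h1.sub h2).abs

theorem continuous_modc (δ : ℝ) : Continuous (modc δ) :=
  IsCompact.continuous_sSup (compact_Kset δ) continuous_osc

theorem modc_bdd (δ : ℝ) (x : Paths) :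
    BddAbove ((fun p : ℝ × ℝ => |x (pr p.1) - x (pr p.2)|) '' Kset δ) := by
  apply (compact_Kset δ).bddAbove_image
  have := continuous_osc.comp (Continuous.prodMk (continuous_const (y := x)) continuous_id)
  exact this.continuousOn

theorem le_modc {δ : ℝ} {x : Paths} {p : ℝ × ℝ} (hp : p ∈ Kset δ) :
    |x (pr p.1) - x (pr p.2)| ≤ modc δ x :=
  le_csSup (modc_bdd δ x) ⟨p, hp, rfl⟩

theorem one_mem {δ : ℝ} (hδ : 0 ≤ δ) : ((1, 1) : ℝ × ℝ) ∈ Kset δ := by
  refine ⟨⟨⟨by norm_num, le_rfl⟩, ⟨by norm_num, le_rfl⟩⟩, ?_⟩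
  simpa using hδ

theorem modc_nonneg {δ : ℝ} (hδ : 0 ≤ δ) (x : Paths) : 0 ≤ modc δ x :=
  (abs_nonneg _).trans (le_modc (x := x) (one_mem hδ))

/-- The truncated modulus of continuity as a bounded continuous functional. -/
noncomputable def Phi (δ : ℝ) (hδ : 0 ≤ δ) : Paths →ᵇ ℝ :=
  BoundedContinuousFunction.ofNormedAddCommGroup (fun x => min 1 (modc δ x))
    (continuous_const.min (continuous_modc δ)) 1 (by
      intro x
      rw [Real.norm_eq_abs, abs_of_nonneg (le_min zero_le_one (modc_nonneg hδ x))]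
      exact min_le_left _ _)

theorem Phi_apply (δ : ℝ) (hδ : 0 ≤ δ) (x : Paths) : Phi δ hδ x = min 1 (modc δ x) := rfl

theorem modc_tendsto (x : Paths) : Tendsto (fun j : ℕ => modc (1 / ((j : ℝ) + 1)) x) atTop
    (𝓝 0) := by
  have hc : UniformContinuousOn (fun s : ℝ => x (pr s)) (Set.Icc (1 / 16384) 1) :=
    isCompact_Icc.uniformContinuousOn_of_continuous (x.continuous.comp continuous_pr).continuousOn
  rw [Metric.uniformContinuousOn_iff] at hc
  rw [Metric.tendsto_atTop]
  intro ε hε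
  obtain ⟨δ, hδ, hd⟩ := hc (ε / 2) (by linarith)
  obtain ⟨N, hN⟩ := exists_nat_gt (1 / δ)
  refine ⟨N, fun j hj => ?_⟩
  have hj0 : (0 : ℝ) < (j : ℝ) + 1 := by positivity
  have hjd : 1 / ((j : ℝ) + 1) < δ := by
    rw [div_lt_iff₀ hj0]
    rw [div_lt_iff₀ hδ] at hN
    have : (N : ℝ) ≤ j := by exact_mod_cast hj
    nlinarith
  have h0 := modc_nonneg (δ := 1 / ((j : ℝ) + 1)) (by positivity) x
  rw [Real.dist_eq, sub_zero, abs_of_nonneg h0]
  have : modc (1 / ((j : ℝ) + 1)) x ≤ ε / 2 := by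
    apply csSup_le
    · exact ⟨_, (1, 1), one_mem (by positivity), rfl⟩
    · rintro _ ⟨p, hp, rfl⟩
      have := hd p.1 hp.1.1 p.2 hp.1.2 (by
        rw [Real.dist_eq]
        exact lt_of_le_of_lt hp.2 hjd)
      rw [Real.dist_eq] at this
      exact this.le
  linarith

theorem path_at (f : ℕ → ℝ) {m k : ℕ} (hm : 1 ≤ m) (hk : 1 ≤ k)
    (h : 1 / 16384 ≤ (k : ℝ) / (m : ℝ) ^ 2) :
    path f m (pr ((k : ℝ) / (m : ℝ) ^ 2)) = f k / m := by
  have hm0 : (0 : ℝ) < m := by exact_mod_cast hm
  have hk0 : (1 : ℝ) ≤ k := by exact_mod_cast hk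
  have e : ((pr ((k : ℝ) / (m : ℝ) ^ 2) : Set.Ioi (0 : ℝ)) : ℝ) = (k : ℝ) / (m : ℝ) ^ 2 :=
    max_eq_left h
  change interp f ((m : ℝ) ^ 2 * ((pr ((k : ℝ) / (m : ℝ) ^ 2) : Set.Ioi (0 : ℝ)) : ℝ)) / m = _
  rw [e]
  have e2 : (m : ℝ) ^ 2 * ((k : ℝ) / (m : ℝ) ^ 2) = k := by field_simp
  rw [e2]
  unfold interp
  rw [max_eq_left hk0, Nat.floor_natCast]
  ring

/-- A macroscopic jump gives a large modulus of continuity. -/
theorem lower (Ω : Type) [MeasurableSpace Ω] (P : Measure Ω) [IsProbabilityMeasure P]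
    (U : ℕ → ℕ → Set Ω) (hU : Passengers P U) (δ : ℝ) (hδ : 0 < δ) {q : ℕ} (hq : 1 ≤ q)
    (hqδ : 1 / δ ≤ q) :
    1 / 2 ^ 21 ≤ ∫ x, Phi δ hδ.le x ∂(law P U (128 * q)) := by
  have hq0 : (1 : ℝ) ≤ q := by exact_mod_cast hq
  unfold law
  rw [integral_map (measurable_path hU _).aemeasurable
    (Phi δ hδ.le).continuous.aestronglyMeasurable]
  have hint : Integrable (fun ω => Phi δ hδ.le (path (fun k => (Mx U k ω : ℝ)) (128 * q))) P := by
    apply Integrable.of_bound
      ((Phi δ hδ.le).continuous.measurable.comp (measurable_path hU _)).aestronglyMeasurable 1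
    apply Filter.Eventually.of_forall
    intro ω
    simp only [Function.comp]
    rw [Phi_apply, Real.norm_eq_abs, abs_of_nonneg (le_min zero_le_one (modc_nonneg hδ.le _))]
    exact min_le_left _ _
  have hnn : 0 ≤ᵐ[P] fun ω => Phi δ hδ.le (path (fun k => (Mx U k ω : ℝ)) (128 * q)) := by
    apply Filter.Eventually.of_forall
    intro ω
    exact le_min zero_le_one (modc_nonneg hδ.le _)
  have h1 := mul_meas_ge_le_integral_of_nonneg hnn hint (1 / 2 ^ 19)
  have h2 := big_jump hU hq
  have hsub : {ω | ∃ k, q ^ 2 ≤ k ∧ k < (128 * q) ^ 2 ∧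
      (Mx U k ω : ℝ) + (128 * q : ℕ) / 2 ^ 19 ≤ Mx U (k + 1) ω} ⊆
      {ω | 1 / 2 ^ 19 ≤ Phi δ hδ.le (path (fun k => (Mx U k ω : ℝ)) (128 * q))} := by
    rintro ω ⟨k, hk1, hk2, hk3⟩
    simp only [Set.mem_ofPred_eq]
    rw [Phi_apply]
    apply le_min
    · norm_num
    · have hkk : (q : ℝ) ^ 2 ≤ k := by exact_mod_cast hk1
      have hkk2 : (k : ℝ) + 1 ≤ (128 * (q : ℝ)) ^ 2 := by exact_mod_cast hk2
      have hq2 : 1 ≤ q ^ 2 := Nat.one_le_pow _ _ hq
      have hm0 : (0 : ℝ) < ((128 * q : ℕ) : ℝ) ^ 2 := by positivity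
      have b1 : 1 / 16384 ≤ (k : ℝ) / ((128 * q : ℕ) : ℝ) ^ 2 := by
        rw [le_div_iff₀ hm0]
        push_cast
        nlinarith
      have b2 : 1 / 16384 ≤ ((k + 1 : ℕ) : ℝ) / ((128 * q : ℕ) : ℝ) ^ 2 := by
        rw [le_div_iff₀ hm0]
        push_cast
        nlinarith
      have b3 : ((k + 1 : ℕ) : ℝ) / ((128 * q : ℕ) : ℝ) ^ 2 ≤ 1 := by
        rw [div_le_one hm0]
        push_cast
        exact hkk2
      have b4 : (k : ℝ) / ((128 * q : ℕ) : ℝ) ^ 2 ≤ 1 := by
        rw [div_le_one hm0]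
        push_cast
        linarith
      have hmem : ((((k + 1 : ℕ) : ℝ) / ((128 * q : ℕ) : ℝ) ^ 2,
          (k : ℝ) / ((128 * q : ℕ) : ℝ) ^ 2) : ℝ × ℝ) ∈ Kset δ := by
        refine ⟨⟨⟨b2, b3⟩, ⟨b1, b4⟩⟩, ?_⟩
        simp only [Set.mem_ofPred_eq]
        have e1 : ((k + 1 : ℕ) : ℝ) / ((128 * q : ℕ) : ℝ) ^ 2 -
            (k : ℝ) / ((128 * q : ℕ) : ℝ) ^ 2 = 1 / ((128 * q : ℕ) : ℝ) ^ 2 := by
          push_cast
          field_simp
          ring
        rw [e1, abs_of_nonneg (by positivity), div_le_iff₀ hm0]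
        rw [div_le_iff₀ hδ] at hqδ
        push_cast
        have : (q : ℝ) ≤ (128 * (q : ℝ)) ^ 2 := by nlinarith
        nlinarith
      have h3 := le_modc (x := path (fun k => (Mx U k ω : ℝ)) (128 * q)) hmem
      refine le_trans ?_ h3
      simp only
      rw [path_at _ (by omega) (by omega) b2, path_at _ (by omega) (by omega) b1]
      refine le_trans ?_ (le_abs_self _)
      have hm1 : (0 : ℝ) < ((128 * q : ℕ) : ℝ) := by positivity
      rw [← sub_div, le_div_iff₀ hm1]
      linarith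
  have h3 := h2.trans (measureReal_mono hsub (measure_ne_top _ _))
  have h4 : (1 : ℝ) / 2 ^ 19 * (1 / 4) ≤ 1 / 2 ^ 19 *
      P.real {ω | 1 / 2 ^ 19 ≤ Phi δ hδ.le (path (fun k => (Mx U k ω : ℝ)) (128 * q))} :=
    mul_le_mul_of_nonneg_left h3 (by positivity)
  refine le_trans ?_ (h4.trans h1)
  norm_num

/-- There is no weak limit. -/
theorem no_limit (Ω : Type) [MeasurableSpace Ω] (P : Measure Ω) [IsProbabilityMeasure P]
    (U : ℕ → ℕ → Set Ω) (hU : Passengers P U) : ¬ LawsConverge (law P U) := by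
  rintro ⟨μ, hμ, hconv⟩
  have h1 : ∀ j : ℕ, 1 / 2 ^ 21 ≤ ∫ x, Phi (1 / ((j : ℝ) + 1)) (by positivity) x ∂μ := by
    intro j
    have ht := (hconv (Phi (1 / ((j : ℝ) + 1)) (by positivity))).comp
      (tendsto_id.const_mul_atTop' (show 0 < 128 by norm_num))
    refine ge_of_tendsto ht ?_
    filter_upwards [eventually_ge_atTop (j + 1)] with q hq
    have hq' : (j : ℝ) + 1 ≤ q := by exact_mod_cast hq
    have hj : (0 : ℝ) < 1 / ((j : ℝ) + 1) := by positivity
    have := lower Ω P U hU (1 / ((j : ℝ) + 1)) hj (q := q) (by omega) (by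
      rw [one_div_one_div]
      exact hq')
    exact this
  have h2 : Tendsto (fun j : ℕ => ∫ x, Phi (1 / ((j : ℝ) + 1)) (by positivity) x ∂μ) atTop
      (𝓝 (∫ _x : Paths, (0 : ℝ) ∂μ)) := by
    apply tendsto_integral_of_dominated_convergence (fun _ => (1 : ℝ))
    · intro j
      exact (Phi (1 / ((j : ℝ) + 1)) (by positivity)).continuous.aestronglyMeasurable
    · exact integrable_const 1
    · intro j
      apply Filter.Eventually.of_forall
      intro x
      rw [Phi_apply, Real.norm_eq_abs,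
        abs_of_nonneg (le_min zero_le_one (modc_nonneg (by positivity) _))]
      exact min_le_left _ _
    · apply Filter.Eventually.of_forall
      intro x
      have h3 := (tendsto_const_nhds (x := (1 : ℝ))).min (modc_tendsto x)
      rw [min_eq_right zero_le_one] at h3
      exact h3
  rw [integral_zero] at h2
  have h3 := ge_of_tendsto h2 (Filter.Eventually.of_forall h1)
  norm_num at h3

/-- The two-point distribution with `P(true) = 1 / max k 1`. -/
noncomputable def coin (k : ℕ) : Measure Bool :=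
  ((max k 1 : ℕ) : ENNReal)⁻¹ • Measure.dirac true +
    (1 - ((max k 1 : ℕ) : ENNReal)⁻¹) • Measure.dirac false

instance (k : ℕ) : IsProbabilityMeasure (coin k) := by
  constructor
  unfold coin
  have h : ((max k 1 : ℕ) : ENNReal)⁻¹ ≤ 1 := by
    rw [ENNReal.inv_le_one]
    exact_mod_cast le_max_right k 1
  simp only [Measure.coe_add, Measure.coe_smul, Pi.add_apply, Pi.smul_apply, measure_univ,
    smul_eq_mul, mul_one]
  exact add_tsub_cancel_of_le h

/-- A probability space carrying independent moves. -/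
theorem exists_model : ∃ (Ω : Type) (_ : MeasurableSpace Ω) (P : Measure Ω)
    (_ : IsProbabilityMeasure P) (U : ℕ → ℕ → Set Ω), Passengers P U := by
  refine ⟨ℕ × ℕ → Bool, inferInstance, Measure.infinitePi (fun p : ℕ × ℕ => coin p.2),
    inferInstance, fun i k => {ω | ω (i, k) = true}, ?_, ?_, ?_⟩
  · intro i k _ _
    have h : Measurable (fun ω : ℕ × ℕ → Bool => ω (i, k)) := measurable_pi_apply _
    exact h (measurableSet_singleton true)
  · intro i k _ hk
    have h1 := Measure.infinitePi_map_eval (fun p : ℕ × ℕ => coin p.2) (i, k)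
    have h2 : (Measure.infinitePi (fun p : ℕ × ℕ => coin p.2)) {ω | ω (i, k) = true} =
        coin k {true} := by
      have h3 : coin k = (Measure.infinitePi (fun p : ℕ × ℕ => coin p.2)).map
        (fun ω => ω (i, k)) := h1.symm
      rw [h3, Measure.map_apply (measurable_pi_apply (i, k)) (measurableSet_singleton true)]
      rfl
    rw [h2]
    unfold coin
    rw [max_eq_left (by omega : 1 ≤ k)]
    simp
  · have hind : iIndepFun (fun (p : ℕ × ℕ) (ω : ℕ × ℕ → Bool) => ω p)
        (Measure.infinitePi (fun p : ℕ × ℕ => coin p.2)) :=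
      iIndepFun_infinitePi (X := fun _ b => b) (fun _ => measurable_id)
    have hind2 := hind.precomp (g := fun p : {p : ℕ × ℕ // 1 ≤ p.1 ∧ 2 ≤ p.2} => p.1)
      Subtype.val_injective
    rw [iIndepSet_iff_meas_biInter]
    · intro s
      exact hind2.measure_inter_preimage_eq_mul s (sets := fun _ => {true})
        (fun _ _ => measurableSet_singleton true)
    · intro p
      have h : Measurable (fun ω : ℕ × ℕ → Bool => ω (p.1.1, p.1.2)) := measurable_pi_apply _
      exact h (measurableSet_singleton true)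

/-- **Main result.** Independent moves of the passengers exist, and for every probability space
carrying them the processes `M^(m)` have laws on the path space (they are random elements of it) and
these laws do not converge as `m → ∞`. -/
theorem result :
    (∃ (Ω : Type) (_ : MeasurableSpace Ω) (P : Measure Ω) (_ : IsProbabilityMeasure P)
      (U : ℕ → ℕ → Set Ω), Passengers P U) ∧
    ∀ (Ω : Type) (_ : MeasurableSpace Ω) (P : Measure Ω) (_ : IsProbabilityMeasure P)
      (U : ℕ → ℕ → Set Ω), Passengers P U →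
        (∀ m : ℕ, IsProbabilityMeasure (law P U m)) ∧ ¬ LawsConverge (law P U) := by
  refine ⟨exists_model, ?_⟩
  intro Ω _ P _ U hU
  refine ⟨fun m => ?_, no_limit Ω P U hU⟩
  exact Measure.isProbabilityMeasure_map (measurable_path hU m).aemeasurable

end Pool.Agent.Results.MP_d01e83_pr.NoLimit
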